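import Mathlib
import Pool.Agent.Z894.CP.Stm3
import Pool.Agent.Y146.MB.K2
import Pool.Agent.Y405.MB.Val

/-!
# ND-2: explicit relations in characteristic zero

Adaptation of Pool/Agent/Y146/MB/K2.lean (helper146).
-/

set_option autoImplicit false

open MvPolynomial

namespace Pool.Agent.Y974.ND

open Pool.Agent.TH922.KC hiding Psi
open Pool.Agent.Z894.LX Pool.Agent.Z894.CP Pool.Agent.Z894.ND Pool.Agent.Y146.MB

lemma Th_map {R S : Type} [CommRing R] [CommRing S] (f : R →+* S) {n : ℕ} (β : Type)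
    {Φ E : Type} [Fintype E] [DecidableEq Φ] (e : Φ → ℕ)
    (cf : (Σ φ : Φ, It (Fin (n + 1)) (e φ)) → R) (gr : E → Φ)
    (W : E → MvPolynomial (Fin (n + 1) ⊕ β) ℤ) (c' : E → R) (φ : Φ) :
    MvPolynomial.map f (Th β e cf gr W c' φ) =
      Th β e (fun s => f (cf s)) gr W (fun ν => f (c' ν)) φ := by
  have hf : f.comp (Int.castRingHom R) = Int.castRingHom S := RingHom.ext_int _ _
  simp only [Th, map_add, map_sum, map_mul, map_C, Psi_map, MvPolynomial.map_map, hf]

lemma Th_zero {R : Type} [CommRing R] {n : ℕ} (β : Type)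
    {Φ E : Type} [Fintype E] [DecidableEq Φ] (e : Φ → ℕ)
    (cf : (Σ φ : Φ, It (Fin (n + 1)) (e φ)) → R) (gr : E → Φ)
    (W : E → MvPolynomial (Fin (n + 1) ⊕ β) ℤ) (φ : Φ) :
    Th β e cf gr W (fun _ => 0) φ = Psi β e cf φ := by
  simp only [Th, map_zero, zero_mul, Finset.sum_const_zero, add_zero]

/-- the reduction homomorphism: the additional variables are sent to zero -/
noncomputable def rh (ι E : Type) (p : ℕ) : MvPolynomial (ι ⊕ E) ℤ →+* MvPolynomial ι (ZMod p) :=
  (aeval (Sum.elim X (fun _ => 0)) : MvPolynomial (ι ⊕ E) ℤ →ₐ[ℤ] MvPolynomial ι (ZMod p))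

lemma rh_inl (ι E : Type) (p : ℕ) (x : ι) : rh ι E p (X (Sum.inl x)) = X x := by
  simp [rh]

lemma rh_inr (ι E : Type) (p : ℕ) (x : E) : rh ι E p (X (Sum.inr x)) = 0 := by
  simp [rh]

lemma rh_surj (ι E : Type) (p : ℕ) : Function.Surjective (rh ι E p) := by
  have h1 : (rh ι E p).comp (rename Sum.inl : MvPolynomial ι ℤ →ₐ[ℤ] MvPolynomial (ι ⊕ E) ℤ) =
      (MvPolynomial.map (Int.castRingHom (ZMod p)) : MvPolynomial ι ℤ →+* _) := by
    apply MvPolynomial.ringHom_ext'
    · exact RingHom.ext_int _ _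
    · intro x
      change rh ι E p (rename Sum.inl (X x)) = _
      rw [rename_X, rh_inl, map_X]
  intro u
  obtain ⟨w, hw⟩ := MvPolynomial.map_surjective (σ := ι) (Int.castRingHom (ZMod p))
    (ZMod.intCast_surjective (n := p)) u
  refine ⟨rename Sum.inl w, ?_⟩
  rw [← hw]
  exact congrArg (fun g => g w) h1

theorem k2_holds (h2 : Pool.Agent.Z894.CP.PAlg) (h3 : Pool.Agent.Z894.CP.PKappa) :
    Pool.Agent.Z894.ND.NK2 := by
  classical
  intro κ _ _ _ p _ n m s hs hnm hnp β Φ E _ _ _ _ e he grp fst hfst π hπ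
    hsum gr W cf c' hcf P hP hgr hgrp hmon
  have hv : AlgebraicIndependent ℤ (Sum.elim cf c') :=
    hcf.restrictScalars (Int.cast_injective)
  obtain ⟨V, φ1, hinj, hφ⟩ := Pool.Agent.Y405.MB.exists_val (Sum.elim cf c') hv
    (rh (Σ φ : Φ, It (Fin (n + 1)) (e φ)) E p) (rh_surj _ _ _)
  have hac : IsAlgClosed (IsLocalRing.ResidueField V) := h2 κ V
  have hchar : CharP (IsLocalRing.ResidueField V) p := charP_of_injective_ringHom hinj p
  have hcfV : ∀ x, cf x ∈ V := by
    intro x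
    obtain ⟨h, -⟩ := hφ (X (Sum.inl x))
    rwa [aeval_X] at h
  have hcV : ∀ ν, c' ν ∈ V := by
    intro ν
    obtain ⟨h, -⟩ := hφ (X (Sum.inr ν))
    rwa [aeval_X] at h
  set cfV : (Σ φ : Φ, It (Fin (n + 1)) (e φ)) → V := fun x => ⟨cf x, hcfV x⟩ with hcfVdef
  set cV : E → V := fun ν => ⟨c' ν, hcV ν⟩ with hcVdef
  set cf2 : (Σ φ : Φ, It (Fin (n + 1)) (e φ)) → IsLocalRing.ResidueField V :=
    fun x => IsLocalRing.residue V (cfV x) with hcf2def
  have hcf2φ : ∀ x, cf2 x = φ1 (X x) := by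
    intro x
    obtain ⟨h, h'⟩ := hφ (X (Sum.inl x))
    rw [rh_inl] at h'
    rw [← h']
    change IsLocalRing.residue V _ = IsLocalRing.residue V _
    congr 1
    apply Subtype.ext
    simp [hcfVdef]
  have hc2 : (fun ν => IsLocalRing.residue V (cV ν)) = fun _ => 0 := by
    funext ν
    obtain ⟨h, h'⟩ := hφ (X (Sum.inr ν))
    rw [rh_inr, map_zero] at h'
    rw [← h']
    congr 1
    apply Subtype.ext
    simp [hcVdef]
  let _ : Algebra (ZMod p) (IsLocalRing.ResidueField V) :=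
    ZMod.algebra (IsLocalRing.ResidueField V) p
  have hind0 : AlgebraicIndependent (ZMod p) cf2 := by
    have e1 : (aeval cf2 : MvPolynomial _ (ZMod p) →ₐ[ZMod p] _).toRingHom = φ1 := by
      apply MvPolynomial.ringHom_ext'
      · exact Subsingleton.elim _ _
      · intro x
        change aeval cf2 (X x) = φ1 (X x)
        rw [aeval_X, hcf2φ]
    change Function.Injective (aeval cf2 : MvPolynomial _ (ZMod p) →ₐ[ZMod p] _)
    intro u v huv
    apply hinj
    rw [← e1]
    exact huv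
  have hspan : ∀ S : Finset (Fin (n + 1)), n + 1 ≤ S.card →
      Submodule.span (ZMod p)
        ((fun a : Fin (n + 1) => (Pi.single a 1 : Fin (n + 1) → ZMod p)) '' S) = ⊤ := by
    intro S hS
    have hS1 : S = Finset.univ := by
      apply Finset.eq_univ_of_card
      have := Finset.card_le_univ S
      rw [Fintype.card_fin] at this ⊢
      omega
    rw [hS1, Finset.coe_univ, Set.image_univ]
    have h5 := (Pi.basisFun (ZMod p) (Fin (n + 1))).span_eq
    have h6 : (Pi.basisFun (ZMod p) (Fin (n + 1)) : Fin (n + 1) → Fin (n + 1) → ZMod p) =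
        fun a : Fin (n + 1) => (Pi.single a 1 : Fin (n + 1) → ZMod p) := by
      funext a
      exact Pi.basisFun_apply _ _ a
    rw [h6] at h5
    exact h5
  -- reduction of the relations
  have hThV : ∀ φ, Th β e cf gr W c' φ = MvPolynomial.map V.subtype (Th β e cfV gr W cV φ) := by
    intro φ
    rw [Th_map]
    rfl
  have hThR : ∀ φ, MvPolynomial.map (IsLocalRing.residue V) (Th β e cfV gr W cV φ) =
      Psi β e cf2 φ := by
    intro φ
    rw [Th_map, hc2, Th_zero]
  have hred : ∀ u : MvPolynomial (Fin (n + 1) ⊕ β) V, MvPolynomial.map V.subtype u ∈ P →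
      MvPolynomial.map (IsLocalRing.residue V) u ∈ red V P := by
    intro u hu
    rw [mem_red]
    exact ⟨u, hu, rfl⟩
  have hrel2 : ∀ (i : β) (c : Fin m), X (Sum.inr i) ^ (p ^ s) - Th β e cf gr W c' (fst c) *
        ∏ φ ∈ Finset.univ.filter (fun φ => grp φ = c ∧ φ ≠ fst c),
          Th β e cf gr W c' φ ^ π φ ∈ P →
      X (Sum.inr i) ^ (p ^ s) - Psi β e cf2 (fst c) *
        ∏ φ ∈ Finset.univ.filter (fun φ => grp φ = c ∧ φ ≠ fst c), Psi β e cf2 φ ^ π φ
        ∈ red V P := by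
    intro i c h
    have := hred (X (Sum.inr i) ^ (p ^ s) - Th β e cfV gr W cV (fst c) *
        ∏ φ ∈ Finset.univ.filter (fun φ => grp φ = c ∧ φ ≠ fst c),
          Th β e cfV gr W cV φ ^ π φ) (by
        simp only [map_sub, map_pow, map_X, map_mul, map_prod]
        simp only [← hThV]
        exact h)
    simp only [map_sub, map_pow, map_X, map_mul, map_prod, hThR] at this
    exact this
  have hrel3 : ∀ (i : β) (ρ : Φ → ℕ),
      X (Sum.inr i) ^ (∑ φ, ρ φ * e φ) - ∏ φ, Th β e cf gr W c' φ ^ ρ φ ∈ P →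
      X (Sum.inr i) ^ (∑ φ, ρ φ * e φ) - ∏ φ, Psi β e cf2 φ ^ ρ φ ∈ red V P := by
    intro i ρ h
    have := hred (X (Sum.inr i) ^ (∑ φ, ρ φ * e φ) - ∏ φ, Th β e cfV gr W cV φ ^ ρ φ) (by
        simp only [map_sub, map_pow, map_X, map_prod]
        simp only [← hThV]
        exact h)
    simp only [map_sub, map_pow, map_X, map_prod, hThR] at this
    exact this
  have hrel4 : ∀ (i : β), X (Sum.inr i) ∈ P →
      (X (Sum.inr i) : MvPolynomial (Fin (n + 1) ⊕ β) (IsLocalRing.ResidueField V))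
        ∈ red V P := by
    intro i h
    have := hred (X (Sum.inr i)) (by rw [map_X]; exact h)
    rwa [map_X] at this
  have hnum : n ≤ (m + 2 - (n + 1)) * (p - 1) := by
    have h7 : 1 ≤ m + 2 - (n + 1) := by omega
    calc n ≤ 1 * (p - 1) := by omega
      _ ≤ (m + 2 - (n + 1)) * (p - 1) := Nat.mul_le_mul_right _ h7
  have hdp := div_of_prime (p ^ s) (1 : ℤ) (red V P) (κ := IsLocalRing.ResidueField V) ?_
    (red V P) (red_hom V hP) le_rfl ?_
  · obtain ⟨K, hK⟩ := hdp
    refine ⟨K, fun t ht => ?_⟩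
    have := hK t ht
    rw [red_hf V hP, red_hf V hP, one_mul] at this
    exact this
  · intro J hJ hJp hle hJgr
    obtain ⟨K, hK⟩ := h3 (ZMod p)
      (IsLocalRing.ResidueField V) p n n (n + 1) m s hs le_rfl (by omega) hnum
      (fun a : Fin (n + 1) => (Pi.single a 1 : Fin (n + 1) → ZMod p)) hspan id β Φ e he
      grp fst hfst π hπ hsum cf2 hind0 J hJ hJp hJgr (by
        intro a b hab hblk'
        exact absurd hblk' hab) (by
        intro c
        obtain ⟨i, hi⟩ := hgrp c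
        exact ⟨i, hle (hrel2 i c hi)⟩) (by
        intro i
        rcases hmon i with hi | ⟨ρ, hρ, hi⟩
        · refine ⟨1, 0, one_pos, isHomogeneous_zero _ _ _, ?_⟩
          rw [map_zero, sub_zero, pow_one]
          exact hle (hrel4 i hi)
        · refine ⟨∑ φ, ρ φ * e φ, ∏ φ, psiH e cf2 φ ^ ρ φ, hρ, ?_, ?_⟩
          · refine IsHomogeneous.prod _ _ _ fun φ _ => ?_
            have := (psiH_hom e cf2 φ).pow (ρ φ)
            rwa [mul_comm] at this
          · rw [map_prod]
            simp only [map_pow, psiH_rename]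
            exact hle (hrel3 i ρ hi))
    exact ⟨K, fun t ht => by rw [one_mul]; exact hK t ht⟩
  · obtain ⟨C, hC⟩ := hgr
    exact ⟨C, fun t => by rw [red_hf V hP]; exact hC t⟩

end Pool.Agent.Y974.ND
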